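import Mathlib
import Pool.Agent.V11121.Gap

/-!
# The spectral gap of generalised pancake graphs versus a quotient matrix

For `(m, n) = (6, 2)` the gap of the generalised pancake graph is at most `1`, whereas the gap of
the quotient matrix is at least `11 / 10`.
-/

namespace Pool.Agent.Results.MP_ad1e8a_co.PancakeGap

open Matrix

/-- Coloured permutations `(χ, ψ)`: position `t` carries the letter `ψ t` with colour `χ t`
(positions and letters are numbered from `0`). -/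
abbrev CPerm (m n : ℕ) := (Fin n → ZMod m) × Equiv.Perm (Fin n)

/-- `τ` is the result of applying to `σ` the prefix reversal of length `k` with colour shift
`ε`. -/
def IsRev {m n : ℕ} (k : ℕ) (ε : ZMod m) (σ τ : CPerm m n) : Prop :=
  (∀ s t : Fin n, s.val + t.val + 1 = k → τ.2 t = σ.2 s ∧ τ.1 t = σ.1 s + ε) ∧
  (∀ t : Fin n, k ≤ t.val → τ.2 t = σ.2 t ∧ τ.1 t = σ.1 t)

/-- The generalised pancake graph. -/
def pancake (m n : ℕ) : SimpleGraph (CPerm m n) where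
  Adj σ τ := σ ≠ τ ∧ ∃ k, 1 ≤ k ∧ k ≤ n ∧ ∃ ε : ZMod m, (ε = 1 ∨ ε = -1) ∧
    (IsRev k ε σ τ ∨ IsRev k ε τ σ)
  symm := by
    constructor
    rintro σ τ ⟨h, k, h1, h2, ε, h3, h4⟩
    exact ⟨h.symm, k, h1, h2, ε, h3, h4.symm⟩
  loopless := by
    constructor
    rintro σ ⟨h, _⟩
    exact h rfl

open Classical in
/-- The adjacency matrix. -/
noncomputable def adjM (m n : ℕ) : Matrix (CPerm m n) (CPerm m n) ℝ :=
  fun σ τ => if (pancake m n).Adj σ τ then 1 else 0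

/-- The part `V_{i,j}`: the position `j` carries the first letter with colour `i`. -/
def part (m n : ℕ) (a : ZMod m × Fin n) : Set (CPerm m n) :=
  {σ | (σ.2 a.2).val = 0 ∧ σ.1 a.2 = a.1}

/-- `Q` is the quotient matrix of the partition into the parts `V_{i,j}`. -/
def IsQuotient (m n : ℕ) (Q : Matrix (ZMod m × Fin n) (ZMod m × Fin n) ℝ) : Prop :=
  ∀ a b, ∀ σ ∈ part m n a, (({τ | (pancake m n).Adj σ τ ∧ τ ∈ part m n b}.ncard : ℕ) : ℝ) = Q a b

/-- The gap `λ₁ - λ₂` of a real symmetric matrix (`0` for other matrices). -/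
noncomputable def gap {ι : Type*} [Fintype ι] [DecidableEq ι] (A : Matrix ι ι ℝ) : ℝ :=
  if h : A.IsHermitian ∧ 1 < Fintype.card ι then
    h.1.eigenvalues₀ ⟨0, lt_trans zero_lt_one h.2⟩ - h.1.eigenvalues₀ ⟨1, h.2⟩
  else 0

/-! ### The neighbours for `m = 6`, `n = 2` -/

/-- Prefix reversal of length `1`. -/
def R1 (ε : ZMod 6) (σ : CPerm 6 2) : CPerm 6 2 := (![σ.1 0 + ε, σ.1 1], σ.2)

/-- Prefix reversal of length `2`. -/
def R2 (ε : ZMod 6) (σ : CPerm 6 2) : CPerm 6 2 :=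
  (![σ.1 1 + ε, σ.1 0 + ε], (Equiv.swap 0 1).trans σ.2)

lemma cperm_ext {σ τ : CPerm 6 2} (h0 : σ.1 0 = τ.1 0) (h1 : σ.1 1 = τ.1 1) (h2 : σ.2 = τ.2) :
    σ = τ := by
  apply Prod.ext
  · funext t
    fin_cases t
    · exact h0
    · exact h1
  · exact h2

lemma isRev_one (ε : ZMod 6) (σ τ : CPerm 6 2) : IsRev 1 ε σ τ ↔ τ = R1 ε σ := by
  constructor
  · rintro ⟨h1, h2⟩
    have a := h1 0 0 (by decide)
    have b := h2 1 (by decide)
    apply cperm_ext
    · rw [a.2]; rfl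
    · rw [b.2]; rfl
    · apply Equiv.ext
      intro t
      fin_cases t
      · exact a.1
      · exact b.1
  · rintro rfl
    constructor
    · intro s t hst
      have hs : s = 0 := by omega
      have ht : t = 0 := by omega
      subst hs; subst ht
      exact ⟨rfl, rfl⟩
    · intro t ht
      have : t = 1 := by omega
      subst this
      exact ⟨rfl, rfl⟩

lemma isRev_two (ε : ZMod 6) (σ τ : CPerm 6 2) : IsRev 2 ε σ τ ↔ τ = R2 ε σ := by
  constructor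
  · rintro ⟨h1, _⟩
    have a := h1 0 1 (by decide)
    have b := h1 1 0 (by decide)
    apply cperm_ext
    · rw [b.2]; rfl
    · rw [a.2]; rfl
    · apply Equiv.ext
      intro t
      fin_cases t
      · simpa [R2] using b.1
      · simpa [R2] using a.1
  · rintro rfl
    constructor
    · intro s t hst
      have hst' : (s = 0 ∧ t = 1) ∨ (s = 1 ∧ t = 0) := by omega
      rcases hst' with ⟨rfl, rfl⟩ | ⟨rfl, rfl⟩
      · refine ⟨?_, rfl⟩
        simp [R2]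
      · refine ⟨?_, rfl⟩
        simp [R2]
    · intro t ht
      omega

lemma R1_neg (ε : ZMod 6) (σ τ : CPerm 6 2) : σ = R1 ε τ ↔ τ = R1 (-ε) σ := by
  constructor
  · rintro rfl
    apply cperm_ext
    · simp [R1]
    · simp [R1]
    · rfl
  · rintro rfl
    apply cperm_ext
    · simp [R1]
    · simp [R1]
    · rfl

lemma R2_neg (ε : ZMod 6) (σ τ : CPerm 6 2) : σ = R2 ε τ ↔ τ = R2 (-ε) σ := by
  constructor
  · rintro rfl
    apply cperm_ext
    · simp [R2]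
    · simp [R2]
    · apply Equiv.ext
      intro t
      simp [R2]
  · rintro rfl
    apply cperm_ext
    · simp [R2]
    · simp [R2]
    · apply Equiv.ext
      intro t
      simp [R2]

lemma swap_ne (ψ : Equiv.Perm (Fin 2)) : (Equiv.swap 0 1).trans ψ ≠ ψ := by
  intro h
  have h1 := congrArg (fun e : Equiv.Perm (Fin 2) => e 0) h
  simp only [Equiv.trans_apply, Equiv.swap_apply_left] at h1
  have := ψ.injective h1
  exact absurd this (by decide)

lemma ne1 (σ : CPerm 6 2) : R1 1 σ ≠ R1 (-1) σ := by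
  intro h
  have h1 := congrFun (congrArg Prod.fst h) 0
  simp only [R1, Matrix.cons_val_zero] at h1
  have := add_left_cancel h1
  revert this
  decide

lemma ne2 (σ : CPerm 6 2) : R2 1 σ ≠ R2 (-1) σ := by
  intro h
  have h1 := congrFun (congrArg Prod.fst h) 0
  simp only [R2, Matrix.cons_val_zero] at h1
  have := add_left_cancel h1
  revert this
  decide

lemma ne12 (ε δ : ZMod 6) (σ : CPerm 6 2) : R1 ε σ ≠ R2 δ σ := by
  intro h
  have h1 : σ.2 = (Equiv.swap 0 1).trans σ.2 := congrArg Prod.snd h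
  exact swap_ne σ.2 h1.symm

lemma adj_iff (σ τ : CPerm 6 2) : (pancake 6 2).Adj σ τ ↔
    τ = R1 1 σ ∨ τ = R1 (-1) σ ∨ τ = R2 1 σ ∨ τ = R2 (-1) σ := by
  constructor
  · rintro ⟨_, k, hk1, hk2, ε, hε, h⟩
    have hk : k = 1 ∨ k = 2 := by omega
    rcases hk with rfl | rfl
    · rw [isRev_one, isRev_one] at h
      rcases hε with rfl | rfl
      · rcases h with h | h
        · exact Or.inl h
        · rw [R1_neg] at h
          exact Or.inr (Or.inl h)
      · rcases h with h | h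
        · exact Or.inr (Or.inl h)
        · rw [R1_neg, neg_neg] at h
          exact Or.inl h
    · rw [isRev_two, isRev_two] at h
      rcases hε with rfl | rfl
      · rcases h with h | h
        · exact Or.inr (Or.inr (Or.inl h))
        · rw [R2_neg] at h
          exact Or.inr (Or.inr (Or.inr h))
      · rcases h with h | h
        · exact Or.inr (Or.inr (Or.inr h))
        · rw [R2_neg, neg_neg] at h
          exact Or.inr (Or.inr (Or.inl h))
  · have hne1 : ∀ ε : ZMod 6, ε ≠ 0 → σ ≠ R1 ε σ := by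
      intro ε hε h
      have h1 := congrFun (congrArg Prod.fst h) 0
      simp only [R1, Matrix.cons_val_zero] at h1
      exact hε (left_eq_add.1 h1)
    have hne2 : ∀ ε : ZMod 6, σ ≠ R2 ε σ := by
      intro ε h
      exact swap_ne σ.2 (congrArg Prod.snd h).symm
    rintro (rfl | rfl | rfl | rfl)
    · exact ⟨hne1 1 (by decide), 1, le_rfl, by decide, 1, Or.inl rfl,
        Or.inl ((isRev_one _ _ _).2 rfl)⟩
    · exact ⟨hne1 (-1) (by decide), 1, le_rfl, by decide, -1, Or.inr rfl,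
        Or.inl ((isRev_one _ _ _).2 rfl)⟩
    · exact ⟨hne2 1, 2, by decide, le_rfl, 1, Or.inl rfl, Or.inl ((isRev_two _ _ _).2 rfl)⟩
    · exact ⟨hne2 (-1), 2, by decide, le_rfl, -1, Or.inr rfl, Or.inl ((isRev_two _ _ _).2 rfl)⟩

/-- The four neighbours. -/
def nb (σ : CPerm 6 2) : Finset (CPerm 6 2) := {R1 1 σ, R1 (-1) σ, R2 1 σ, R2 (-1) σ}

lemma mem_nb (σ τ : CPerm 6 2) : τ ∈ nb σ ↔ (pancake 6 2).Adj σ τ := by
  rw [adj_iff]
  simp [nb]

lemma sum_nb {M : Type*} [AddCommMonoid M] (σ : CPerm 6 2) (F : CPerm 6 2 → M) :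
    ∑ τ ∈ nb σ, F τ = F (R1 1 σ) + (F (R1 (-1) σ) + (F (R2 1 σ) + F (R2 (-1) σ))) := by
  unfold nb
  rw [Finset.sum_insert, Finset.sum_insert, Finset.sum_insert, Finset.sum_singleton]
  · simp only [Finset.mem_singleton]
    exact ne2 σ
  · simp only [Finset.mem_insert, Finset.mem_singleton, not_or]
    exact ⟨ne12 _ _ _, ne12 _ _ _⟩
  · simp only [Finset.mem_insert, Finset.mem_singleton, not_or]
    exact ⟨ne1 σ, ne12 _ _ _, ne12 _ _ _⟩

lemma adjM_mulVec (F : CPerm 6 2 → ℝ) (σ : CPerm 6 2) : (adjM 6 2 *ᵥ F) σ =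
    F (R1 1 σ) + (F (R1 (-1) σ) + (F (R2 1 σ) + F (R2 (-1) σ))) := by
  rw [← sum_nb, Matrix.mulVec, dotProduct]
  rw [← Finset.sum_subset (Finset.subset_univ (nb σ))]
  · apply Finset.sum_congr rfl
    intro τ hτ
    rw [mem_nb] at hτ
    simp [adjM, hτ]
  · intro τ _ hτ
    rw [mem_nb] at hτ
    simp [adjM, hτ]

lemma adjM_herm (m n : ℕ) : (adjM m n).IsHermitian := by
  ext σ τ
  simp only [Matrix.conjTranspose_apply, adjM, star_trivial]
  by_cases h : (pancake m n).Adj σ τ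
  · rw [if_pos h, if_pos h.symm]
  · rw [if_neg h, if_neg (fun h' => h h'.symm)]

lemma adjM_row (σ : CPerm 6 2) : ∑ τ, |adjM 6 2 σ τ| ≤ 4 := by
  have h1 : ∑ τ, |adjM 6 2 σ τ| = (adjM 6 2 *ᵥ (fun _ => 1)) σ := by
    rw [Matrix.mulVec, dotProduct]
    apply Finset.sum_congr rfl
    intro τ _
    unfold adjM
    split_ifs <;> simp
  rw [h1, adjM_mulVec]
  norm_num

/-! ### The eigenvector -/

/-- `2 cos (π d / 3)`. -/
def c (d : ZMod 6) : ℤ := if d = 0 then 2 else if d = 1 ∨ d = 5 then 1 else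
  if d = 2 ∨ d = 4 then -1 else -2

lemma c_add : ∀ d : ZMod 6, c (d + 1) + c (d + -1) = c d := by decide

lemma c_neg : ∀ d : ZMod 6, c (-d) = c d := by decide

/-- The eigenvector. -/
noncomputable def F (σ : CPerm 6 2) : ℝ := (c (σ.1 0 - σ.1 1) : ℝ)

lemma F_eig (σ : CPerm 6 2) : (adjM 6 2 *ᵥ F) σ = 3 * F σ := by
  rw [adjM_mulVec]
  unfold F
  simp only [R1, R2, Matrix.cons_val_zero, Matrix.cons_val_one]
  have e1 : σ.1 0 + 1 - σ.1 1 = σ.1 0 - σ.1 1 + 1 := by ring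
  have e2 : σ.1 0 + -1 - σ.1 1 = σ.1 0 - σ.1 1 + -1 := by ring
  have e3 : σ.1 1 + 1 - (σ.1 0 + 1) = -(σ.1 0 - σ.1 1) := by ring
  have e4 : σ.1 1 + -1 - (σ.1 0 + -1) = -(σ.1 0 - σ.1 1) := by ring
  rw [e1, e2, e3, e4, c_neg]
  have := c_add (σ.1 0 - σ.1 1)
  have h2 : (c (σ.1 0 - σ.1 1 + 1) : ℝ) + c (σ.1 0 - σ.1 1 + -1) = c (σ.1 0 - σ.1 1) := by
    exact_mod_cast this
  linarith

lemma card_gt : 1 < Fintype.card (CPerm 6 2) := by
  rw [Fintype.one_lt_card_iff]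
  refine ⟨(0, 1), (fun _ => 1, 1), ?_⟩
  intro h
  have := congrFun (congrArg Prod.fst h) 0
  revert this
  decide

lemma gap_graph : gap (adjM 6 2) ≤ 1 := by
  have hH := adjM_herm 6 2
  unfold gap
  rw [dif_pos ⟨hH, card_gt⟩]
  have h1 := V11121.Gap.first_le hH (d := 4) adjM_row ⟨0, lt_trans zero_lt_one card_gt⟩
  have hone : (adjM 6 2 *ᵥ (fun _ => (1 : ℝ))) = (4 : ℝ) • (fun _ => (1 : ℝ)) := by
    funext σ
    rw [adjM_mulVec]
    simp only [Pi.smul_apply, smul_eq_mul]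
    norm_num
  have hF : (adjM 6 2 *ᵥ F) = (3 : ℝ) • F := by
    funext σ
    rw [F_eig]
    rfl
  have hne1 : (fun _ : CPerm 6 2 => (1 : ℝ)) ≠ 0 := by
    intro h
    have := congrFun h (0, 1)
    simp at this
  have hneF : F ≠ 0 := by
    intro h
    have := congrFun h (0, 1)
    simp [F, c] at this
  have h2 := V11121.Gap.le_second hH hne1 hone hneF hF (by norm_num) card_gt
  linarith

/-! ### The quotient matrix -/

/-- The quotient matrix for `(m, n) = (6, 2)`. -/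
noncomputable def Q : Matrix (ZMod 6 × Fin 2) (ZMod 6 × Fin 2) ℝ := fun a b =>
  if a.2 = 1 ∧ b.2 = 1 then (if a.1 = b.1 then 2 else 0) else
    if b.1 = a.1 + 1 ∨ b.1 = a.1 + -1 then 1 else 0

lemma val_zero_iff (x : Fin 2) : x.val = 0 ↔ x = 0 := by
  rw [Fin.ext_iff]; rfl

open Classical in
lemma ncard_eq (σ : CPerm 6 2) (S : Set (CPerm 6 2)) :
    {τ | (pancake 6 2).Adj σ τ ∧ τ ∈ S}.ncard =
    (if R1 1 σ ∈ S then 1 else 0) + ((if R1 (-1) σ ∈ S then 1 else 0) +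
      ((if R2 1 σ ∈ S then 1 else 0) + (if R2 (-1) σ ∈ S then 1 else 0))) := by
  rw [← sum_nb σ (fun τ => if τ ∈ S then 1 else 0)]
  have h1 : {τ | (pancake 6 2).Adj σ τ ∧ τ ∈ S} = ((nb σ).filter (fun τ => τ ∈ S) : Set _) := by
    ext τ
    simp [mem_nb]
  rw [h1, Set.ncard_coe_finset, Finset.card_filter]

lemma perm_zero_one (ψ : Equiv.Perm (Fin 2)) : (ψ 0 = 0 ↔ ψ 1 ≠ 0) := by
  revert ψ
  decide

lemma R1_mem_zero (ε : ZMod 6) (σ : CPerm 6 2) (i : ZMod 6) :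
    R1 ε σ ∈ part 6 2 (i, 0) ↔ σ.2 0 = 0 ∧ σ.1 0 + ε = i := by
  simp [part, R1]

lemma R1_mem_one (ε : ZMod 6) (σ : CPerm 6 2) (i : ZMod 6) :
    R1 ε σ ∈ part 6 2 (i, 1) ↔ σ.2 1 = 0 ∧ σ.1 1 = i := by
  simp [part, R1]

lemma R2_mem_zero (ε : ZMod 6) (σ : CPerm 6 2) (i : ZMod 6) :
    R2 ε σ ∈ part 6 2 (i, 0) ↔ σ.2 1 = 0 ∧ σ.1 1 + ε = i := by
  simp [part, R2]

lemma R2_mem_one (ε : ZMod 6) (σ : CPerm 6 2) (i : ZMod 6) :
    R2 ε σ ∈ part 6 2 (i, 1) ↔ σ.2 0 = 0 ∧ σ.1 0 + ε = i := by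
  simp [part, R2]

lemma Q_quot : IsQuotient 6 2 Q := by
  classical
  rintro ⟨i, j⟩ ⟨i', j'⟩ σ hσ
  have hσ' : σ.2 j = 0 ∧ σ.1 j = i := by
    obtain ⟨h1, h2⟩ := hσ
    exact ⟨(val_zero_iff _).1 h1, h2⟩
  obtain ⟨h1, h2⟩ := hσ'
  rw [ncard_eq]
  have hp := perm_zero_one σ.2
  have key : ∀ x y : ZMod 6, (((if x + 1 = y then 1 else 0) + (if x + -1 = y then 1 else 0) : ℕ)
      : ℝ) = if y = x + 1 ∨ y = x + -1 then 1 else 0 := by
    intro x y
    have hne : x + 1 ≠ x + -1 := by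
      intro h
      have := add_left_cancel h
      revert this
      decide
    by_cases e1 : x + 1 = y
    · subst e1
      simp [hne.symm]
    · by_cases e2 : x + -1 = y
      · subst e2
        simp [e1]
      · simp [e1, e2, Ne.symm e1, Ne.symm e2, eq_comm]
  fin_cases j <;> fin_cases j'
  · simp only [Fin.zero_eta] at h1 h2
    simp only [Fin.zero_eta, Q, R1_mem_zero, R2_mem_zero, h1, h2, hp.1 h1, true_and, false_and,
      if_false, add_zero, Fin.isValue]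
    rw [key]
    simp
  · simp only [Fin.zero_eta] at h1 h2
    simp only [Fin.zero_eta, Fin.mk_one, Q, R1_mem_one, R2_mem_one, h1, h2, hp.1 h1, true_and,
      false_and, if_false, zero_add, Fin.isValue]
    rw [key]
    simp
  · simp only [Fin.mk_one] at h1 h2
    have h0 : σ.2 0 ≠ 0 := fun h => hp.1 h h1
    simp only [Fin.zero_eta, Fin.mk_one, Q, R1_mem_zero, R2_mem_zero, h1, h2, h0, true_and,
      false_and, if_false, zero_add, Fin.isValue]
    rw [key]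
    simp
  · simp only [Fin.mk_one] at h1 h2
    have h0 : σ.2 0 ≠ 0 := fun h => hp.1 h h1
    simp only [Fin.mk_one, Q, R1_mem_one, R2_mem_one, h1, h2, h0, true_and,
      false_and, if_false, add_zero, Fin.isValue, and_self]
    by_cases e : i = i'
    · simp [e]
    · simp [e]

lemma part_nonempty (a : ZMod 6 × Fin 2) : ∃ σ, σ ∈ part 6 2 a := by
  refine ⟨(fun _ => a.1, Equiv.swap 0 a.2), ?_⟩
  simp [part]

lemma quot_unique {Q' : Matrix (ZMod 6 × Fin 2) (ZMod 6 × Fin 2) ℝ} (h : IsQuotient 6 2 Q') :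
    Q' = Q := by
  ext a b
  obtain ⟨σ, hσ⟩ := part_nonempty a
  rw [← h a b σ hσ, Q_quot a b σ hσ]

lemma Q_herm : Q.IsHermitian := by
  ext a b
  have key : ∀ x y : ZMod 6, (x = y + 1 ∨ x = y + -1) ↔ (y = x + 1 ∨ y = x + -1) := by decide
  simp only [Matrix.conjTranspose_apply, Q, star_trivial]
  by_cases h : a.2 = 1 ∧ b.2 = 1
  · rw [if_pos h, if_pos ⟨h.2, h.1⟩]
    simp [eq_comm]
  · rw [if_neg h, if_neg (fun h' => h ⟨h'.2, h'.1⟩)]
    exact if_congr (key a.1 b.1) rfl rfl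

lemma sos (a0 b0 a1 b1 a2 b2 a3 b3 a4 b4 a5 b5 : ℝ) :
    29 / 10 * (a0 ^ 2 + b0 ^ 2 + a1 ^ 2 + b1 ^ 2 + a2 ^ 2 + b2 ^ 2 + a3 ^ 2 + b3 ^ 2 + a4 ^ 2 + b4 ^ 2 + a5 ^ 2 + b5 ^ 2) -
      (2 * b0 ^ 2 + 2 * (a0 * a1 + a0 * b1 + b0 * a1) + 2 * b1 ^ 2 + 2 * (a1 * a2 + a1 * b2 + b1 * a2) + 2 * b2 ^ 2 + 2 * (a2 * a3 + a2 * b3 + b2 * a3) + 2 * b3 ^ 2 + 2 * (a3 * a4 + a3 * b4 + b3 * a4) + 2 * b4 ^ 2 + 2 * (a4 * a5 + a4 * b5 + b4 * a5) + 2 * b5 ^ 2 + 2 * (a5 * a0 + a5 * b0 + b5 * a0)) +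
      1 / 10 * (a0 + b0 + a1 + b1 + a2 + b2 + a3 + b3 + a4 + b4 + a5 + b5) ^ 2 =
      3 * (a0 + (1/30) * b0 + (-3/10) * a1 + (-3/10) * b1 + (1/30) * a2 + (1/30) * b2 + (1/30) * a3 + (1/30) * b3 + (1/30) * a4 + (1/30) * b4 + (-3/10) * a5 + (-3/10) * b5) ^ 2 +
      (299/300) * (b0 + (-261/299) * a1 + (3/23) * b1 + (29/299) * a2 + (29/299) * b2 + (29/299) * a3 + (29/299) * b3 + (29/299) * a4 + (29/299) * b4 + (-261/299) * a5 + (3/23) * b5) ^ 2 +
      (2946/1495) * (a1 + (-169/5892) * b1 + (-783/1964) * a2 + (-783/1964) * b2 + (641/5892) * a3 + (641/5892) * b3 + (641/5892) * a4 + (641/5892) * b4 + (-2779/5892) * a5 + (-169/5892) * b5) ^ 2 +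
      (41917/58920) * (b1 + (-53331/41917) * a2 + (5589/41917) * b2 + (29/167) * a3 + (29/167) * b3 + (29/167) * a4 + (29/167) * b4 + (-4901/41917) * a5 + (-11111/41917) * b5) ^ 2 +
      (319087/209585) * (a2 + (-1521/22006) * b2 + (-280869/638174) * a3 + (-280869/638174) * b3 + (4769/22006) * a4 + (4769/22006) * b4 + (-109819/638174) * a5 + (-60809/638174) * b5) ^ 2 +
      (28791/44012) * (b2 + (-195859/143955) * a3 + (2689/15995) * b3 + (4379/15995) * a4 + (4379/15995) * b4 + (-35909/143955) * a5 + (2689/15995) * b5) ^ 2 +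
      (29988548/20873475) * (a3 + (-4289949/59977096) * b3 + (-23737689/59977096) * a4 + (-23737689/59977096) * b4 + (-308059/59977096) * a5 + (10105551/59977096) * b5) ^ 2 +
      (372922033/599770960) * (b3 + (-529629291/372922033) * a4 + (70141669/372922033) * b4 + (144868079/372922033) * a5 + (54738669/372922033) * b5) ^ 2 +
      (2503824929/1864610165) * (a4 + (-510796189/5007649858) * b4 + (-852098029/5007649858) * a5 + (-2300778819/5007649858) * b5) ^ 2 +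
      (28091438331/50076498580) * (b4 + (-1799131/1576311) * a5 + (487039/1576311) * b5) ^ 2 +
      (903482/1576311) * (a5 + (-695579/9034820) * b5) ^ 2 +
      (21189169/90348200) * (b5) ^ 2 := by
  ring

lemma sos_nonneg (a0 b0 a1 b1 a2 b2 a3 b3 a4 b4 a5 b5 : ℝ) :
    0 ≤ 29 / 10 * (a0 ^ 2 + b0 ^ 2 + a1 ^ 2 + b1 ^ 2 + a2 ^ 2 + b2 ^ 2 + a3 ^ 2 + b3 ^ 2 + a4 ^ 2 + b4 ^ 2 + a5 ^ 2 + b5 ^ 2) -
      (2 * b0 ^ 2 + 2 * (a0 * a1 + a0 * b1 + b0 * a1) + 2 * b1 ^ 2 + 2 * (a1 * a2 + a1 * b2 + b1 * a2) + 2 * b2 ^ 2 + 2 * (a2 * a3 + a2 * b3 + b2 * a3) + 2 * b3 ^ 2 + 2 * (a3 * a4 + a3 * b4 + b3 * a4) + 2 * b4 ^ 2 + 2 * (a4 * a5 + a4 * b5 + b4 * a5) + 2 * b5 ^ 2 + 2 * (a5 * a0 + a5 * b0 + b5 * a0)) +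
      1 / 10 * (a0 + b0 + a1 + b1 + a2 + b2 + a3 + b3 + a4 + b4 + a5 + b5) ^ 2 := by
  rw [sos]
  positivity

lemma sum_pairs (f : ZMod 6 × Fin 2 → ℝ) : ∑ a, f a =
    f (0, 0) + f (0, 1) + (f (1, 0) + f (1, 1)) + (f (2, 0) + f (2, 1)) + (f (3, 0) + f (3, 1)) +
      (f (4, 0) + f (4, 1)) + (f (5, 0) + f (5, 1)) := by
  rw [Fintype.sum_prod_type]
  change ∑ x : Fin 6, ∑ y : Fin 2, f (x, y) = _
  rw [Fin.sum_univ_six]
  simp only [Fin.sum_univ_two]
  rfl

lemma sum_two (i : ZMod 6) (f : ZMod 6 → ℝ) :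
    ∑ k, (if k = i + 1 ∨ k = i + -1 then (1 : ℝ) else 0) * f k = f (i + 1) + f (i + -1) := by
  have hne : i + 1 ≠ i + -1 := by
    intro h
    have := add_left_cancel h
    revert this
    decide
  have h1 : ∀ k, (if k = i + 1 ∨ k = i + -1 then (1 : ℝ) else 0) * f k =
      (if k = i + 1 then f k else 0) + (if k = i + -1 then f k else 0) := by
    intro k
    by_cases e1 : k = i + 1
    · subst e1
      simp [hne]
    · by_cases e2 : k = i + -1
      · subst e2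
        simp [e1]
      · simp [e1, e2]
  simp only [h1, Finset.sum_add_distrib, Finset.sum_ite_eq', Finset.mem_univ, if_true]

lemma Q_mul_zero (x : ZMod 6 × Fin 2 → ℝ) (i : ZMod 6) : (Q *ᵥ x) (i, 0) =
    (x (i + 1, 0) + x (i + 1, 1)) + (x (i + -1, 0) + x (i + -1, 1)) := by
  rw [Matrix.mulVec, dotProduct, Fintype.sum_prod_type]
  rw [← sum_two i (fun k => x (k, 0) + x (k, 1))]
  apply Finset.sum_congr rfl
  intro k _
  rw [Fin.sum_univ_two]
  simp only [Q, Fin.isValue, zero_ne_one, false_and, if_false]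
  ring

lemma Q_mul_one (x : ZMod 6 × Fin 2 → ℝ) (i : ZMod 6) : (Q *ᵥ x) (i, 1) =
    2 * x (i, 1) + (x (i + 1, 0) + x (i + -1, 0)) := by
  rw [Matrix.mulVec, dotProduct, Fintype.sum_prod_type]
  rw [← sum_two i (fun k => x (k, 0))]
  have h2 : 2 * x (i, 1) = ∑ k, (if i = k then 2 * x (k, 1) else 0) := by
    rw [Finset.sum_ite_eq]; simp
  rw [h2, ← Finset.sum_add_distrib]
  apply Finset.sum_congr rfl
  intro k _
  rw [Fin.sum_univ_two]
  simp only [Q, Fin.isValue, zero_ne_one, and_false, if_false, and_self, if_true]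
  by_cases e : i = k
  · simp only [e, if_true]; ring
  · simp only [e, if_false]; ring

lemma Q_one : Q *ᵥ (fun _ => (1 : ℝ)) = (4 : ℝ) • (fun _ => (1 : ℝ)) := by
  funext a
  obtain ⟨i, j⟩ := a
  fin_cases j
  · simp only [Fin.zero_eta, Q_mul_zero, Pi.smul_apply, smul_eq_mul]
    norm_num
  · simp only [Fin.mk_one, Q_mul_one, Pi.smul_apply, smul_eq_mul]
    norm_num

lemma Q_form (x : ZMod 6 × Fin 2 → ℝ) (hx : (fun _ => (1 : ℝ)) ⬝ᵥ x = 0) :
    x ⬝ᵥ (Q *ᵥ x) ≤ 29 / 10 * (x ⬝ᵥ x) := by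
  have h1 := sum_pairs x
  have h2 : ∑ a, x a = 0 := by
    rw [← hx]
    simp [dotProduct]
  rw [h2] at h1
  rw [dotProduct, dotProduct, sum_pairs, sum_pairs]
  simp only [Q_mul_zero, Q_mul_one]
  have a0 : (0 : ZMod 6) + 1 = 1 := by decide
  have a1 : (1 : ZMod 6) + 1 = 2 := by decide
  have a2 : (2 : ZMod 6) + 1 = 3 := by decide
  have a3 : (3 : ZMod 6) + 1 = 4 := by decide
  have a4 : (4 : ZMod 6) + 1 = 5 := by decide
  have a5 : (5 : ZMod 6) + 1 = 0 := by decide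
  have b0 : (0 : ZMod 6) + -1 = 5 := by decide
  have b1 : (1 : ZMod 6) + -1 = 0 := by decide
  have b2 : (2 : ZMod 6) + -1 = 1 := by decide
  have b3 : (3 : ZMod 6) + -1 = 2 := by decide
  have b4 : (4 : ZMod 6) + -1 = 3 := by decide
  have b5 : (5 : ZMod 6) + -1 = 4 := by decide
  rw [a0, a1, a2, a3, a4, a5, b0, b1, b2, b3, b4, b5]
  have hs := sos_nonneg (x (0, 0)) (x (0, 1)) (x (1, 0)) (x (1, 1)) (x (2, 0)) (x (2, 1)) (x (3, 0))
    (x (3, 1)) (x (4, 0)) (x (4, 1)) (x (5, 0)) (x (5, 1))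
  have hz : x (0, 0) + x (0, 1) + x (1, 0) + x (1, 1) + x (2, 0) + x (2, 1) + x (3, 0) +
      x (3, 1) + x (4, 0) + x (4, 1) + x (5, 0) + x (5, 1) = 0 := by
    rw [h1]; ring
  rw [hz] at hs
  linarith

lemma card_gt_Q : 1 < Fintype.card (ZMod 6 × Fin 2) := by
  rw [Fintype.card_prod, ZMod.card, Fintype.card_fin]
  norm_num

lemma gap_Q : 11 / 10 ≤ gap Q := by
  unfold gap
  rw [dif_pos ⟨Q_herm, card_gt_Q⟩]
  have hne : (fun _ : ZMod 6 × Fin 2 => (1 : ℝ)) ≠ 0 := by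
    intro h
    have := congrFun h (0, 0)
    simp at this
  have h1 := V11121.Gap.le_first Q_herm hne Q_one (lt_trans zero_lt_one card_gt_Q)
  have h2 := V11121.Gap.second_le Q_herm (c := 29 / 10) (fun _ => (1 : ℝ)) Q_form card_gt_Q
  linarith

/-- For `(m, n) = (6, 2)` the quotient matrix `Q` exists and is unique, the gap of the graph is at
most `1`, and the gap of `Q` is at least `11 / 10`. -/
theorem result : ∃ Q : Matrix (ZMod 6 × Fin 2) (ZMod 6 × Fin 2) ℝ,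
    (∀ Q', IsQuotient 6 2 Q' ↔ Q' = Q) ∧ Q.IsHermitian ∧
    gap (adjM 6 2) ≤ 1 ∧ 11 / 10 ≤ gap Q := by
  refine ⟨Q, fun Q' => ⟨quot_unique, ?_⟩, Q_herm, gap_graph, gap_Q⟩
  rintro rfl
  exact Q_quot

end Pool.Agent.Results.MP_ad1e8a_co.PancakeGap
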